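import Mathlib
import Pool.Agent.W845.Cyc.Conn2

/-!
# The product condition does not imply cutoff for transitive graphs

There are finite connected vertex-transitive graphs `G_k` (circulant graphs), `|V(G_k)| → ∞`,
whose lazy simple random walks satisfy the product condition but have no total variation cutoff,
and not even a pre-cutoff.
-/

open Finset Filter Topology

namespace Pool.Agent.Results.MP_4b7267_pr.TransitiveNoPreCutoff

open Pool.Agent.W845.Cyc Pool.Agent

noncomputable section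

/-- The graph `G` is vertex-transitive: its automorphism group acts transitively. -/
def VertexTransitive {V : Type} (G : SimpleGraph V) : Prop :=
  ∀ x y : V, ∃ φ : G ≃g G, φ x = y

/-- Transition matrix `P = (1/2)(I + D⁻¹ A)` of the lazy simple random walk on `G`. -/
def lazySRW {V : Type} [Fintype V] [DecidableEq V] (G : SimpleGraph V) [DecidableRel G.Adj] :
    Matrix V V ℝ :=
  fun x y => (if x = y then 1 / 2 else 0) + (if G.Adj x y then 1 / (2 * (G.degree x : ℝ)) else 0)

/-- Total variation distance to stationarity, `d(t) = max_x ‖P^t(x,·) - π‖_TV` with `π` the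
uniform distribution on `V`. -/
def dTV {V : Type} [Fintype V] [DecidableEq V] (P : Matrix V V ℝ) (t : ℕ) : ℝ :=
  ⨆ x : V, (1 / 2 : ℝ) * ∑ y, |(P ^ t) x y - 1 / (Fintype.card V : ℝ)|

/-- Mixing time `t_mix(ε) = min {t ≥ 0 : d(t) ≤ ε}`. -/
def mixTime {V : Type} [Fintype V] [DecidableEq V] (P : Matrix V V ℝ) (ε : ℝ) : ℕ :=
  sInf {t : ℕ | dTV P t ≤ ε}

/-- The second largest eigenvalue of an irreducible transition matrix `P` (for which the
eigenvalue `1` is simple): the largest real eigenvalue different from `1`. -/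
def lambda2 {V : Type} [Fintype V] [DecidableEq V] (P : Matrix V V ℝ) : ℝ :=
  sSup (spectrum ℝ P \ {1})

/-- Relaxation time `t_rel = 1 / (1 - λ₂)`. -/
def relTime {V : Type} [Fintype V] [DecidableEq V] (P : Matrix V V ℝ) : ℝ :=
  1 / (1 - lambda2 P)

/-- The product condition `t_mix / t_rel → ∞`, with `t_mix = t_mix(1/4)`. -/
def ProductCondition (V : ℕ → Type) [∀ n, Fintype (V n)] [∀ n, DecidableEq (V n)]
    (P : ∀ n, Matrix (V n) (V n) ℝ) : Prop :=
  Tendsto (fun n => (mixTime (P n) (1 / 4) : ℝ) / relTime (P n)) atTop atTop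

/-- Total variation cutoff: `t_mix(ε) / t_mix(1-ε) → 1` for every fixed `ε ∈ (0,1)`. -/
def HasCutoff (V : ℕ → Type) [∀ n, Fintype (V n)] [∀ n, DecidableEq (V n)]
    (P : ∀ n, Matrix (V n) (V n) ℝ) : Prop :=
  ∀ ε : ℝ, 0 < ε → ε < 1 →
    Tendsto (fun n => (mixTime (P n) ε : ℝ) / (mixTime (P n) (1 - ε) : ℝ)) atTop (𝓝 1)

/-- Total variation pre-cutoff: for some constant `C` (not depending on `ε`), for every
`ε ∈ (0, 1/2)` one has `t_mix(ε) ≤ C t_mix(1-ε)` for all large `n`. -/
def HasPreCutoff (V : ℕ → Type) [∀ n, Fintype (V n)] [∀ n, DecidableEq (V n)]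
    (P : ∀ n, Matrix (V n) (V n) ℝ) : Prop :=
  ∃ C : ℝ, ∀ ε : ℝ, 0 < ε → ε < 1 / 2 →
    ∀ᶠ n in atTop, (mixTime (P n) ε : ℝ) ≤ C * (mixTime (P n) (1 - ε) : ℝ)

section

variable {G : Type} [AddCommGroup G] [Fintype G] [DecidableEq G]

theorem lazySRW_mulVec (S : Finset G) (h0 : (0 : G) ∉ S) (hn : ∀ s ∈ S, -s ∈ S) (f : G → ℝ) :
    (lazySRW (Helper394.cay S h0 hn)).mulVec f = Helper394.V S f := by
  ext x
  rw [Helper394.V_apply, Helper394.U_apply]
  simp only [Matrix.mulVec, dotProduct, lazySRW, add_mul, ite_mul, zero_mul,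
    Helper394.cay_degree, Helper394.cay_adj]
  rw [Finset.sum_add_distrib]
  congr 1
  · rw [Finset.sum_ite_eq univ x]
    simp
    ring
  · rw [← Finset.sum_filter]
    rw [div_div, Finset.sum_div]
    refine Finset.sum_bij' (fun y _ => y - x) (fun s _ => x + s) ?_ ?_ ?_ ?_ ?_
    · intro y hy; simpa using hy
    · intro s hs; simpa using hs
    · intro y _; simp
    · intro s _; simp
    · intro y _
      simp only [add_sub_cancel]
      ring

end

/-- There are finite connected vertex-transitive graphs `G_n` with `|V_n| → ∞` whose lazy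
simple random walks satisfy the product condition but have no total variation cutoff, and not
even a total variation pre-cutoff. -/
theorem result :
    ∃ (V : ℕ → Type) (_ : ∀ n, Fintype (V n)) (_ : ∀ n, DecidableEq (V n))
      (G : ∀ n, SimpleGraph (V n)) (_ : ∀ n, DecidableRel (G n).Adj),
      Tendsto (fun n => Fintype.card (V n)) atTop atTop ∧
      (∀ n, (G n).Connected) ∧
      (∀ n, VertexTransitive (G n)) ∧
      ProductCondition V (fun n => lazySRW (G n)) ∧
      ¬ HasCutoff V (fun n => lazySRW (G n)) ∧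
      ¬ HasPreCutoff V (fun n => lazySRW (G n)) := by
  choose N hN S hTN hS using fun k : ℕ => exists_bad2 (k + 64) (k + 64) (by omega) (by omega)
  let G : ∀ n, SimpleGraph (ZMod (N n)) := fun n => Helper394.cay (S n) (hS n).zero (hS n).neg
  have hP : ∀ n, ∀ f : ZMod (N n) → ℝ, (lazySRW (G n)).mulVec f = Helper394.V (S n) f :=
    fun n f => lazySRW_mulVec (S n) _ _ f
  have hcard : ∀ n, (0 : ℝ) < Fintype.card (ZMod (N n)) := fun n => by
    exact_mod_cast Fintype.card_pos
  have hlow : ∀ n, ∀ t ≤ (n + 64) * (n + 64),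
      (1 - 1 / (4 * ((n + 64 : ℕ) : ℝ))) ^ t * (1 - 1 / ((n + 64 : ℕ) : ℝ)) -
        1 / ((n + 64 : ℕ) : ℝ) ≤ dTV (lazySRW (G n)) t := by
    intro n t ht
    have h := fact2_lower (by omega) (by omega) (hS n) (hP n) t ht
    have h' := Helper394.ciSup_ge_val
      (fun x : ZMod (N n) => (1 / 2 : ℝ) * ∑ y, |((lazySRW (G n)) ^ t) x y -
        1 / (Fintype.card (ZMod (N n)) : ℝ)|) 0
    exact h.trans h'
  have hup : ∀ n, ∀ k : ℕ, dTV (lazySRW (G n)) (2 * (k + 1) + 1) ≤ 1 - ck (n + 64) k / 2 := by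
    intro n k
    refine ciSup_le fun x => ?_
    exact fact2_upper (by omega) (by omega) (hS n) (hP n) k x
  have hconv : ∀ n ε, 0 < ε → ∃ t, dTV (lazySRW (G n)) t ≤ ε := by
    intro n ε hε
    have hG := hcard n
    obtain ⟨t, ht⟩ := fact2_conv (by omega) (by omega) (hS n) (hP n)
      (ε / Fintype.card (ZMod (N n))) (by positivity)
    refine ⟨t, ciSup_le fun x => ?_⟩
    calc (1 / 2 : ℝ) * ∑ y, |((lazySRW (G n)) ^ t) x y - 1 / (Fintype.card (ZMod (N n)) : ℝ)|
        ≤ (1 / 2 : ℝ) * ∑ _y : ZMod (N n), ε / Fintype.card (ZMod (N n)) := by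
          gcongr with y
          exact ht x y
      _ = ε / 2 := by
          simp only [Finset.sum_const, Finset.card_univ, nsmul_eq_mul]
          field_simp
      _ ≤ ε := by linarith
  have hkey : ∀ C : ℝ, ∃ ε : ℝ, 0 < ε ∧ ε < 1 / 2 ∧
      ∀ᶠ k in atTop, C * (mixTime (lazySRW (G k)) (1 - ε) : ℝ) <
        (mixTime (lazySRW (G k)) ε : ℝ) := by
    intro C
    obtain ⟨M, hM⟩ := exists_nat_gt (11 * |C| + 11)
    have hM8 : 11 ≤ M := by
      have : (11 : ℝ) < M := by
        have := abs_nonneg C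
        linarith
      exact_mod_cast this.le
    set ε : ℝ := (3 / 4 : ℝ) ^ M / 2 with hε
    have hε0 : 0 < ε := by positivity
    have hε1 : ε ≤ 1 / 20 := by
      have h1 : (3 / 4 : ℝ) ^ M ≤ (3 / 4 : ℝ) ^ 11 :=
        pow_le_pow_of_le_one (by norm_num) (by norm_num) hM8
      have h2 : (3 / 4 : ℝ) ^ 11 ≤ 1 / 10 := by norm_num
      linarith
    refine ⟨ε, hε0, by linarith, ?_⟩
    obtain ⟨k0, hk0⟩ := exists_nat_gt (2 / ε)
    filter_upwards [eventually_ge_atTop k0, eventually_ge_atTop M] with k hk hkM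
    have hk' : (k0 : ℝ) ≤ ((k + 64 : ℕ) : ℝ) := by
      have : k0 ≤ k + 64 := by omega
      exact_mod_cast this
    have hqpos : (0 : ℝ) < ((k + 64 : ℕ) : ℝ) := by positivity
    have h1 : ε + 2 / ((k + 64 : ℕ) : ℝ) < (3 / 4 : ℝ) ^ M := by
      have h2 : 2 / ((k + 64 : ℕ) : ℝ) < ε := by
        rw [div_lt_iff₀ hqpos]
        have h3 : 2 / ε < ((k + 64 : ℕ) : ℝ) := lt_of_lt_of_le hk0 hk'
        rw [div_lt_iff₀ hε0] at h3
        linarith
      have h3 : (3 / 4 : ℝ) ^ M = 2 * ε := by rw [hε]; ring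
      rw [h3]; linarith
    have h2 : M * (k + 64) < mixTime (lazySRW (G k)) ε :=
      mix_ge (T := k + 64) (q := k + 64) (by omega) (by omega)
        (fun t => dTV (lazySRW (G k)) t) (hlow k) M (by omega) ε (hconv k ε hε0) h1
    have h3 : (mixTime (lazySRW (G k)) (1 - ε) : ℝ) ≤ 180 * ε * ((k + 64 : ℕ) : ℝ) + 5 :=
      mix_le (T := k + 64) (by omega) (fun t => dTV (lazySRW (G k)) t) (hup k) ε hε0 hε1
    have h4 : (M : ℝ) * ((k + 64 : ℕ) : ℝ) < (mixTime (lazySRW (G k)) ε : ℝ) := by
      exact_mod_cast h2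
    have hT64 : (64 : ℝ) ≤ ((k + 64 : ℕ) : ℝ) := by
      have : 64 ≤ k + 64 := by omega
      exact_mod_cast this
    set T : ℝ := ((k + 64 : ℕ) : ℝ) with hT
    have h5 : (mixTime (lazySRW (G k)) (1 - ε) : ℝ) ≤ 10 * T := by nlinarith
    have h6 : (0 : ℝ) ≤ (mixTime (lazySRW (G k)) (1 - ε) : ℝ) := by positivity
    calc C * (mixTime (lazySRW (G k)) (1 - ε) : ℝ)
        ≤ |C| * (mixTime (lazySRW (G k)) (1 - ε) : ℝ) :=
          mul_le_mul_of_nonneg_right (le_abs_self C) h6
      _ ≤ |C| * (10 * T) := mul_le_mul_of_nonneg_left h5 (abs_nonneg C)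
      _ ≤ M * T := by
          have := abs_nonneg C
          nlinarith
      _ < _ := h4
  refine ⟨fun n => ZMod (N n), fun n => inferInstance, fun n => inferInstance, G,
    fun n => inferInstance, ?_, ?_, ?_, ?_, ?_, ?_⟩
  · refine tendsto_atTop_mono (fun n => ?_) tendsto_id
    rw [ZMod.card]
    have := hTN n
    simp only [id]
    omega
  · exact fun n => cay_connected2 (by omega) (hS n)
  · exact fun n => Helper394.cay_transitive _ _ _
  · have hr : ∀ n, 1 ≤ relTime (lazySRW (G n)) ∧ relTime (lazySRW (G n)) ≤ 8 := by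
      intro n
      have h := Helper394.lam2_bound (lazySRW (G n))
        (fun lam hlam h1 => fact2_spec (by omega) (by omega) (hS n) (hP n) lam hlam h1)
      have ha : 0 ≤ lambda2 (lazySRW (G n)) := h.1
      have hb : lambda2 (lazySRW (G n)) ≤ 7 / 8 := h.2
      rw [relTime]
      constructor
      · rw [le_div_iff₀ (by linarith)]; linarith
      · rw [div_le_iff₀ (by linarith)]; linarith
    have h1 : ∀ n : ℕ, (n : ℝ) ≤ (mixTime (lazySRW (G n)) (1 / 4) : ℝ) := by
      intro n
      have hq : (64 : ℝ) ≤ ((n + 64 : ℕ) : ℝ) := by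
        have : 64 ≤ n + 64 := by omega
        exact_mod_cast this
      have h2 : 1 * (n + 64) < mixTime (lazySRW (G n)) (1 / 4) :=
        mix_ge (T := n + 64) (q := n + 64) (by omega) (by omega)
          (fun t => dTV (lazySRW (G n)) t) (hlow n) 1 (by omega) (1 / 4)
          (hconv n _ (by norm_num)) (by
            have : 2 / ((n + 64 : ℕ) : ℝ) ≤ 2 / 64 :=
              div_le_div_of_nonneg_left (by norm_num) (by norm_num) hq
            norm_num at this ⊢
            linarith)
      have h3 : n ≤ mixTime (lazySRW (G n)) (1 / 4) := by omega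
      exact_mod_cast h3
    have h2 : Tendsto (fun n : ℕ => (n : ℝ) / 8) atTop atTop :=
      tendsto_natCast_atTop_atTop.atTop_div_const (by norm_num)
    refine tendsto_atTop_mono (fun n => ?_) h2
    obtain ⟨h7, h8⟩ := hr n
    rw [div_le_div_iff₀ (by norm_num) (by linarith)]
    have h9 : (0 : ℝ) ≤ n := by positivity
    have := h1 n
    nlinarith
  · intro hcut
    obtain ⟨ε, hε0, hε1, hev⟩ := hkey 2
    have h1 := hcut ε hε0 (by linarith)
    have h2 := h1.eventually (gt_mem_nhds (show (1 : ℝ) < 2 by norm_num))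
    have h3 := h1.eventually (lt_mem_nhds (show (1 / 2 : ℝ) < 1 by norm_num))
    obtain ⟨k, hk1, hk2, hk3⟩ := (hev.and (h2.and h3)).exists
    rcases Nat.eq_zero_or_pos (mixTime (lazySRW (G k)) (1 - ε)) with h0 | h0
    · rw [h0] at hk3
      simp at hk3
      linarith
    · have h4 : (0 : ℝ) < (mixTime (lazySRW (G k)) (1 - ε) : ℝ) := by exact_mod_cast h0
      rw [div_lt_iff₀ h4] at hk2
      linarith
  · rintro ⟨C, hC⟩
    obtain ⟨ε, hε0, hε1, hev⟩ := hkey C
    obtain ⟨k, hk1, hk2⟩ := (hev.and (hC ε hε0 hε1)).exists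
    linarith

end

end Pool.Agent.Results.MP_4b7267_pr.TransitiveNoPreCutoff
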